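import Pool.Agent.WAP.StmtsL

/-!
# Row CNT: counting incongruent points
-/

namespace Pool.Agent.WAP.H33

open Classical Polynomial WeierstrassCurve.Affine

/-- representatives modulo a Gaussian integer. -/
theorem reps (w : GaussianInt) (h : w ≠ 0) :
    ∃ T : Finset GaussianInt, T.card ≤ nm w ∧ ∀ a : GaussianInt, ∃ t ∈ T, w ∣ a - t := by
  obtain ⟨a0, b0⟩ := w
  have hab : ¬ (a0 = 0 ∧ b0 = 0) := by
    rintro ⟨h1, h2⟩
    apply h
    rw [h1, h2]
    rfl
  obtain ⟨g, hg⟩ : ∃ g : ℤ, g = (Int.gcd a0 b0 : ℤ) := ⟨_, rfl⟩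
  have hg0 : 0 < g := by
    rw [hg]
    have : 0 < Int.gcd a0 b0 := by
      rw [Nat.pos_iff_ne_zero]
      intro h0
      exact hab (Int.gcd_eq_zero_iff.1 h0)
    exact_mod_cast this
  obtain ⟨a1, ha1⟩ : g ∣ a0 := by
    rw [hg]
    exact Int.gcd_dvd_left ..
  obtain ⟨b1, hb1⟩ : g ∣ b0 := by
    rw [hg]
    exact Int.gcd_dvd_right ..
  obtain ⟨M, hM⟩ : ∃ M : ℤ, M = a0 * a1 + b0 * b1 := ⟨_, rfl⟩
  have hN : a0 ^ 2 + b0 ^ 2 = M * g := by
    rw [hM]
    linear_combination a0 * ha1 + b0 * hb1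
  have hNpos : 0 < a0 ^ 2 + b0 ^ 2 := by
    by_contra hcon
    push Not at hcon
    apply hab
    constructor
    · nlinarith [sq_nonneg a0, sq_nonneg b0]
    · nlinarith [sq_nonneg a0, sq_nonneg b0]
  have hM0 : 0 < M := by
    rw [hN] at hNpos
    exact (pos_iff_pos_of_mul_pos hNpos).2 hg0
  obtain ⟨u1, u2, hu⟩ : ∃ u1 u2 : ℤ, g = a0 * u1 + b0 * u2 := by
    refine ⟨Int.gcdA a0 b0, Int.gcdB a0 b0, ?_⟩
    rw [hg]
    exact Int.gcd_eq_gcd_ab a0 b0
  refine ⟨((Finset.Ico 0 M) ×ˢ (Finset.Ico 0 g)).image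
    (fun p : ℤ × ℤ => (⟨p.1, p.2⟩ : GaussianInt)), ?_, ?_⟩
  · refine le_trans Finset.card_image_le ?_
    rw [Finset.card_product, Int.card_Ico, Int.card_Ico, sub_zero, sub_zero]
    have h1 : nm (⟨a0, b0⟩ : GaussianInt) = (M * g).natAbs := by
      unfold nm
      rw [← hN]
      congr 1
      show a0 * a0 - (-1) * b0 * b0 = a0 ^ 2 + b0 ^ 2
      ring
    rw [h1, Int.natAbs_mul]
    have h2 : M.toNat = M.natAbs := by omega
    have h3 : g.toNat = g.natAbs := by omega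
    rw [h2, h3]
  · rintro ⟨x, y⟩
    obtain ⟨x1, hx1⟩ : ∃ x1 : ℤ, x1 = x - (y / g) * (a0 * u2 - b0 * u1) := ⟨_, rfl⟩
    refine ⟨⟨x1 % M, y % g⟩, ?_, ?_⟩
    · rw [Finset.mem_image]
      refine ⟨(x1 % M, y % g), ?_, rfl⟩
      rw [Finset.mem_product, Finset.mem_Ico, Finset.mem_Ico]
      exact ⟨⟨Int.emod_nonneg _ (ne_of_gt hM0), Int.emod_lt_of_pos _ hM0⟩,
        Int.emod_nonneg _ (ne_of_gt hg0), Int.emod_lt_of_pos _ hg0⟩
    · refine ⟨⟨(y / g) * u2 + (x1 / M) * a1, (y / g) * u1 - (x1 / M) * b1⟩, ?_⟩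
      have e1 : x1 % M + M * (x1 / M) = x1 := Int.emod_add_mul_ediv x1 M
      have e2 : y % g + g * (y / g) = y := Int.emod_add_mul_ediv y g
      have e3 : b0 * a1 - a0 * b1 = 0 := by
        linear_combination a1 * hb1 - b1 * ha1
      apply Zsqrtd.ext
      · show x - x1 % M = a0 * ((y / g) * u2 + (x1 / M) * a1) +
          (-1) * b0 * ((y / g) * u1 - (x1 / M) * b1)
        rw [hM] at e1 ⊢
        linear_combination -hx1 - e1
      · show y - y % g = a0 * ((y / g) * u1 - (x1 / M) * b1) +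
          b0 * ((y / g) * u2 + (x1 / M) * a1)
        linear_combination -e2 + (y / g) * hu - (x1 / M) * e3

theorem cnt (zlv : ZlvStmt) (cri : CriStmt) : CntStmt := by
  intro F _ _ w hF hw2 d hd A hA
  have hd0 : d ≠ 0 := by
    rintro rfl
    rw [norm_zero] at hd
    exact zero_ne_one hd
  have hsub := (zlv F w hF d hd0).1
  -- at most one point in the kernel of reduction
  have hG : (A.filter (fun P => Big 1 P)).card ≤ 1 := by
    rw [Finset.card_le_one]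
    intro P hP Q hQ
    rw [Finset.mem_filter] at hP hQ
    by_contra hne
    apply hA P hP.1 Q hQ.1 hne
    exact (hsub (max ‖zc P‖ ‖zc Q‖) P Q ⟨hP.2, le_max_left _ _⟩ ⟨hQ.2, le_max_right _ _⟩).2.2.1
  obtain ⟨T, hT, hTr⟩ := reps w hF.prime.ne_zero
  -- coordinates of the points outside
  have hout : ∀ P : Pt d, ¬ Big 1 P → ∃ X Y h, P = Point.some X Y h ∧ ‖X‖ ≤ 1 := by
    intro P hP
    rcases P with _ | ⟨X, Y, h⟩
    · exact absurd (Or.inl rfl) hP
    · refine ⟨X, Y, h, rfl, ?_⟩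
      by_contra hcon
      apply hP
      right
      show 1 < ‖X / d‖
      rw [norm_div, hd, div_one]
      exact not_le.1 hcon
  -- the residue
  have hres : ∀ X : F, ‖X‖ ≤ 1 → ∃ t ∈ T, ‖X - algebraMap GaussianInt F t‖ < 1 := by
    intro X hX
    obtain ⟨a, ha⟩ := hF.res X hX
    obtain ⟨t, ht, hdt⟩ := hTr a
    refine ⟨t, ht, ?_⟩
    have h1 : ‖algebraMap GaussianInt F (a - t)‖ < 1 := (hF.lt_one _).2 hdt
    have h2 : X - algebraMap GaussianInt F t =
        (X - algebraMap GaussianInt F a) + algebraMap GaussianInt F (a - t) := by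
      rw [map_sub]
      ring
    rw [h2]
    exact lt_of_le_of_lt (hF.ultra _ _) (max_lt ha h1)
  have hsubn : ∀ x y : F, ‖x - y‖ ≤ max ‖x‖ ‖y‖ := by
    intro x y
    have := hF.ultra x (-y)
    rwa [norm_neg, ← sub_eq_add_neg] at this
  have hf : ∃ f : Pt d → GaussianInt, ∀ P : Pt d, ¬ Big 1 P → f P ∈ T ∧
      ‖cX P - algebraMap GaussianInt F (f P)‖ < 1 := by
    have hch : ∀ P : Pt d, ∃ t : GaussianInt, ¬ Big 1 P → t ∈ T ∧
        ‖cX P - algebraMap GaussianInt F t‖ < 1 := by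
      intro P
      by_cases hP : Big 1 P
      · exact ⟨0, fun h => absurd hP h⟩
      · obtain ⟨X, Y, h, rfl, hX⟩ := hout P hP
        obtain ⟨t, ht, ht2⟩ := hres X hX
        exact ⟨t, fun _ => ⟨ht, ht2⟩⟩
    choose f hf using hch
    exact ⟨f, hf⟩
  obtain ⟨f, hf⟩ := hf
  obtain ⟨B, hB⟩ : ∃ B, B = A.filter (fun P => ¬ Big 1 P) := ⟨_, rfl⟩
  have hBA : ∀ P ∈ B, P ∈ A ∧ ¬ Big 1 P := by
    intro P hP
    rw [hB, Finset.mem_filter] at hP
    exact hP
  -- two different points with the same residue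
  have hpair : ∀ P ∈ B, ∀ Q ∈ B, P ≠ Q → f P = f Q → ‖cY P + cY Q‖ < 1 ∧ 1 ≤ ‖cY P - cY Q‖ := by
    intro P hP Q hQ hne hfe
    obtain ⟨hPA, hPG⟩ := hBA P hP
    obtain ⟨hQA, hQG⟩ := hBA Q hQ
    have hr1 := (hf P hPG).2
    have hr2 := (hf Q hQG).2
    obtain ⟨X1, Y1, h1, rfl, hX1⟩ := hout P hPG
    obtain ⟨X2, Y2, h2, rfl, hX2⟩ := hout Q hQG
    have hX : ‖X1 - X2‖ < 1 := by
      have e : X1 - X2 = (X1 - algebraMap GaussianInt F (f (.some X1 Y1 h1))) -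
          (X2 - algebraMap GaussianInt F (f (.some X2 Y2 h2))) := by
        rw [hfe]
        ring
      rw [e]
      exact lt_of_le_of_lt (hsubn _ _) (max_lt hr1 hr2)
    have hY : ¬ ‖Y1 - Y2‖ < 1 := by
      intro hlt
      exact hA _ hPA _ hQA hne
        ((cri F w hF hw2 d hd X1 Y1 X2 Y2 h1 h2 hX1 hX2).2 ⟨hX, hlt⟩)
    refine ⟨?_, not_lt.1 hY⟩
    show ‖Y1 + Y2‖ < 1
    have e1 : Y1 ^ 2 = X1 ^ 3 - d ^ 2 * X1 := (W_equation d X1 Y1).1 h1.1
    have e2 : Y2 ^ 2 = X2 ^ 3 - d ^ 2 * X2 := (W_equation d X2 Y2).1 h2.1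
    have e3 : (Y1 - Y2) * (Y1 + Y2) = (X1 - X2) * (X1 ^ 2 + X1 * X2 + (X2 ^ 2 - d ^ 2)) := by
      linear_combination e1 - e2
    have hN : ‖X1 ^ 2 + X1 * X2 + (X2 ^ 2 - d ^ 2)‖ ≤ 1 := by
      refine le_trans (hF.ultra _ _) (max_le ?_ ?_)
      · refine le_trans (hF.ultra _ _) (max_le ?_ ?_)
        · rw [norm_pow]
          exact pow_le_one₀ (norm_nonneg _) hX1
        · rw [norm_mul]
          exact mul_le_one₀ hX1 (norm_nonneg _) hX2
      · refine le_trans (hsubn _ _) (max_le ?_ ?_)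
        · rw [norm_pow]
          exact pow_le_one₀ (norm_nonneg _) hX2
        · rw [norm_pow, hd, one_pow]
    have e4 : ‖Y1 - Y2‖ * ‖Y1 + Y2‖ < 1 := by
      rw [← norm_mul, e3, norm_mul]
      exact lt_of_le_of_lt (mul_le_of_le_one_right (norm_nonneg _) hN) hX
    by_contra hcon
    have h3 := not_lt.1 hcon
    have h4 := not_lt.1 hY
    have : 1 * 1 ≤ ‖Y1 - Y2‖ * ‖Y1 + Y2‖ := mul_le_mul h4 h3 zero_le_one (norm_nonneg _)
    linarith
  have hBc : B.card ≤ 2 * T.card := by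
    have h1 : (B.image f).card ≤ T.card := by
      apply Finset.card_le_card
      intro t ht
      rw [Finset.mem_image] at ht
      obtain ⟨P, hP, rfl⟩ := ht
      exact (hf P (hBA P hP).2).1
    refine le_trans (Finset.card_le_mul_card_image B 2 ?_) (Nat.mul_le_mul_left 2 h1)
    intro t _
    by_contra hcon
    have h3 : 2 < (B.filter (fun P => f P = t)).card := not_le.1 hcon
    obtain ⟨P, Q, R, hP, hQ, hR, hPQ, hPR, hQR⟩ := Finset.two_lt_card_iff.1 h3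
    rw [Finset.mem_filter] at hP hQ hR
    have k1 := (hpair P hP.1 Q hQ.1 hPQ (by rw [hP.2, hQ.2])).1
    have k2 := (hpair P hP.1 R hR.1 hPR (by rw [hP.2, hR.2])).1
    have k3 := (hpair Q hQ.1 R hR.1 hQR (by rw [hQ.2, hR.2])).2
    have k4 : ‖cY Q - cY R‖ < 1 := by
      have e : cY Q - cY R = (cY P + cY Q) - (cY P + cY R) := by ring
      rw [e]
      exact lt_of_le_of_lt (hsubn _ _) (max_lt k1 k2)
    linarith
  have hsum : A.card = (A.filter (fun P => Big 1 P)).card + B.card := by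
    rw [hB]
    exact (Finset.card_filter_add_card_filter_not _).symm
  rw [hsum]
  omega

end Pool.Agent.WAP.H33
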