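import Pool.Agent.WAP.StmtsL

/-!
# Row GNP: the generic point
-/

namespace Pool.Agent.WAP.H33

open Classical Polynomial WeierstrassCurve.Affine

theorem sq_ne (F : Type) [Field F] (d : F) (p q : F[X])
    (h : p ^ 2 = q ^ 2 * (X ^ 3 - C (d ^ 2) * X)) : p = 0 ∧ q = 0 := by
  have h3 : (X ^ 3 - C (d ^ 2) * X : F[X]).natDegree = 3 := by
    compute_degree!
  have h3' : (X ^ 3 - C (d ^ 2) * X : F[X]) ≠ 0 := by
    intro h0
    rw [h0, natDegree_zero] at h3
    exact absurd h3 (by norm_num)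
  by_cases hq : q = 0
  · rw [hq] at h
    refine ⟨?_, hq⟩
    apply eq_zero_of_pow_eq_zero (n := 2)
    rw [h]
    ring
  · exfalso
    have h4 := congrArg natDegree h
    rw [natDegree_pow, natDegree_mul (pow_ne_zero 2 hq) h3', natDegree_pow, h3] at h4
    omega

/-- the abstract form: a fraction field `L` of a ring `R = m(F[X]) + m(F[X]) y`. -/
theorem exists_of_ring (F : Type) [Field F] (d : F) (R L : Type) [CommRing R] [IsDomain R]
    [Field L] [Algebra R L] [IsFractionRing R L] (m : F[X] →+* R) (y : R)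
    (hy : y ^ 2 = m (X ^ 3 - C (d ^ 2) * X)) (hb : ∀ a : R, ∃ p q, a = m p + m q * y)
    (hz : ∀ p, m p = 0 → p = 0)
    (lift : ∀ (f : F[X] →+* L) (y' : L), y' ^ 2 = f (X ^ 3 - C (d ^ 2) * X) →
      ∃ g : R →+* L, (∀ p, g (m p) = f p) ∧ g y = y') :
    ∃ (i : F →+* L) (x y : L),
      y ^ 2 = x ^ 3 - (i d) ^ 2 * x ∧ (∀ p : F[X], p ≠ 0 → p.eval₂ i x ≠ 0) ∧
      ∀ x' y' : L, y' ^ 2 = x' ^ 3 - (i d) ^ 2 * x' →
        (∀ p : F[X], p ≠ 0 → p.eval₂ i x' ≠ 0) →
        ∃ s : L →+* L, (∀ c, s (i c) = i c) ∧ s x = x' ∧ s y = y' := by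
  have jinj : Function.Injective (algebraMap R L) := IsFractionRing.injective R L
  obtain ⟨j, hj⟩ : ∃ j : R →+* L, j = algebraMap R L := ⟨_, rfl⟩
  rw [← hj] at jinj
  obtain ⟨c1, hc1⟩ : ∃ c1 : F[X] →+* L, c1 = j.comp m := ⟨_, rfl⟩
  obtain ⟨i, hi⟩ : ∃ i : F →+* L, i = c1.comp C := ⟨_, rfl⟩
  have hev : ∀ p : F[X], p.eval₂ i (c1 X) = c1 p := by
    intro p
    have h := Polynomial.hom_eval₂ p C c1 X
    rw [Polynomial.eval₂_C_X, ← hi] at h
    exact h.symm
  have hcm : ∀ p, c1 p = j (m p) := by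
    intro p
    rw [hc1]
    rfl
  have hci : ∀ c, c1 (C c) = i c := by
    intro c
    rw [hi]
    rfl
  refine ⟨i, c1 X, j y, ?_, ?_, ?_⟩
  · rw [← map_pow, hy, ← hcm, map_sub, map_mul, map_pow, hci, map_pow]
  · intro p hp h0
    rw [hev, hcm] at h0
    have h1 : j (m p) = j 0 := by rw [map_zero]; exact h0
    exact hp (hz p (jinj h1))
  · intro x' y' hxy htr
    obtain ⟨f, hf⟩ : ∃ f : F[X] →+* L, f = eval₂RingHom i x' := ⟨_, rfl⟩
    have hfC : ∀ c, f (C c) = i c := fun c => by
      rw [hf]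
      exact eval₂_C i x'
    have hfX : f X = x' := by
      rw [hf]
      exact eval₂_X i x'
    have hfe : ∀ p : F[X], p.eval₂ i x' = f p := by
      intro p
      rw [hf]
      rfl
    obtain ⟨g, hgC, hgY⟩ := lift f y' (by
      rw [map_sub, map_mul, map_pow, hfC, hfX, map_pow]
      exact hxy)
    have ginj : Function.Injective g := by
      rw [injective_iff_map_eq_zero]
      intro a ha
      obtain ⟨p, q, rfl⟩ := hb a
      rw [map_add, map_mul, hgC, hgC, hgY] at ha
      have h1 : f (p ^ 2 - q ^ 2 * (X ^ 3 - C (d ^ 2) * X)) = 0 := by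
        have h2 : f p = - (f q * y') := eq_neg_of_add_eq_zero_left ha
        rw [map_sub, map_mul, map_sub, map_mul, map_pow, map_pow, map_pow, hfC, hfX, map_pow, h2]
        linear_combination (f q) ^ 2 * hxy
      have h2 : p ^ 2 - q ^ 2 * (X ^ 3 - C (d ^ 2) * X) = 0 := by
        by_contra hne
        apply htr _ hne
        rw [hfe]
        exact h1
      obtain ⟨hp, hq⟩ := sq_ne F d p q (sub_eq_zero.1 h2)
      rw [hp, hq, map_zero, zero_mul, add_zero]
    have hs : ∀ a, IsFractionRing.lift (K := L) ginj (j a) = g a := by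
      intro a
      rw [hj]
      exact IsFractionRing.lift_algebraMap ginj a
    refine ⟨IsFractionRing.lift (K := L) ginj, ?_, ?_, ?_⟩
    · intro c
      have h := hs (m (C c))
      rw [hgC, hfC, ← hcm, hci] at h
      exact h
    · rw [hcm, hs, hgC, hfX]
    · rw [hs, hgY]

theorem poly_eq (F : Type) [Field F] (d : F) :
    (W d).polynomial = X ^ 2 - C (X ^ 3 - C (d ^ 2) * X) := by
  rw [WeierstrassCurve.Affine.polynomial]
  simp only [W, map_zero, map_neg, map_sub, map_mul, map_add, map_pow]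
  ring

theorem root_eq (F : Type) [Field F] (d : F) (L : Type) [CommRing L] (f : F[X] →+* L) (y' : L)
    (hy : y' ^ 2 = f (X ^ 3 - C (d ^ 2) * X)) : (W d).polynomial.eval₂ f y' = 0 := by
  rw [poly_eq, eval₂_sub, eval₂_pow, eval₂_X, eval₂_C, hy, sub_self]

theorem exists_function_field (F : Type) [Field F] (d : F) :
    ∃ (L : Type) (_ : Field L) (i : F →+* L) (x y : L),
      y ^ 2 = x ^ 3 - (i d) ^ 2 * x ∧ (∀ p : F[X], p ≠ 0 → p.eval₂ i x ≠ 0) ∧
      ∀ x' y' : L, y' ^ 2 = x' ^ 3 - (i d) ^ 2 * x' →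
        (∀ p : F[X], p ≠ 0 → p.eval₂ i x' ≠ 0) →
        ∃ s : L →+* L, (∀ c, s (i c) = i c) ∧ s x = x' ∧ s y = y' := by
  refine ⟨FractionRing (W d).CoordinateRing, inferInstance, ?_⟩
  refine exists_of_ring F d (W d).CoordinateRing (FractionRing (W d).CoordinateRing)
    ((CoordinateRing.mk (W d)).comp C) (CoordinateRing.mk (W d) X) ?_ ?_ ?_ ?_
  · rw [← map_pow]
    apply AdjoinRoot.mk_eq_mk.mpr
    refine ⟨1, ?_⟩
    rw [poly_eq, mul_one]
  · intro a
    obtain ⟨p, q, rfl⟩ := CoordinateRing.exists_smul_basis_eq a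
    refine ⟨p, q, ?_⟩
    rw [CoordinateRing.smul, CoordinateRing.smul, mul_one]
    rfl
  · intro p hp
    have h3 : p • (1 : (W d).CoordinateRing) +
        (0 : F[X]) • (CoordinateRing.mk (W d) X) = 0 := by
      rw [CoordinateRing.smul, zero_smul, add_zero, mul_one]
      exact hp
    exact (CoordinateRing.smul_basis_eq_zero h3).1
  · intro f y' hy
    have hroot : (W d).polynomial.eval₂ f y' = 0 := root_eq F d _ f y' hy
    refine ⟨AdjoinRoot.lift f y' hroot, ?_, ?_⟩
    · intro p
      exact AdjoinRoot.lift_of hroot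
    · exact AdjoinRoot.lift_root hroot

theorem eval₂_alg (F L : Type) [Field F] [IsAlgClosed F] [Field L] (i : F →+* L) (x : L) :
    ∀ (n : ℕ) (p : F[X]), p.natDegree ≤ n → p ≠ 0 → p.eval₂ i x = 0 → ∃ c, x = i c := by
  intro n
  induction n with
  | zero =>
    intro p hp hp0 he
    exfalso
    rw [natDegree_le_iff_degree_le, Nat.cast_zero] at hp
    rw [eq_C_of_degree_le_zero hp, eval₂_C] at he
    apply hp0
    rw [eq_C_of_degree_le_zero hp, (map_eq_zero i).1 he, map_zero]
  | succ n ih =>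
    intro p hp hp0 he
    by_cases hd : p.degree = 0
    · exfalso
      rw [eq_C_of_degree_le_zero (le_of_eq hd), eval₂_C] at he
      apply hp0
      rw [eq_C_of_degree_le_zero (le_of_eq hd), (map_eq_zero i).1 he, map_zero]
    · obtain ⟨c, hc⟩ := IsAlgClosed.exists_root p hd
      obtain ⟨q, hq⟩ := dvd_iff_isRoot.2 hc
      rw [hq, eval₂_mul, eval₂_sub, eval₂_X, eval₂_C] at he
      rcases mul_eq_zero.1 he with h | h
      · exact ⟨c, sub_eq_zero.1 h⟩
      · have hq0 : q ≠ 0 := by
          rintro rfl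
          apply hp0
          rw [hq, mul_zero]
        refine ih q ?_ hq0 h
        rw [hq, natDegree_mul (X_sub_C_ne_zero c) hq0, natDegree_X_sub_C] at hp
        omega

theorem gnp : GnpStmt := by
  intro F _ _ _ d h2 hd
  obtain ⟨L, instL, i, x, y, hxy, htr, hun⟩ := exists_function_field F d
  let alg : Algebra GaussianInt L := (i.comp (algebraMap GaussianInt F)).toAlgebra
  have halg : ∀ r : GaussianInt, algebraMap GaussianInt L r = i (algebraMap GaussianInt F r) :=
    fun r => rfl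
  let ι : F →ₐ[GaussianInt] L := { i with commutes' := fun r => rfl }
  have hι : ∀ c, ι c = i c := fun c => rfl
  have hιr : (ι : F →+* L) = i := by
    ext c
    rfl
  have h2L : (2 : L) ≠ 0 := by
    intro h
    apply h2
    apply i.injective
    rw [map_ofNat, map_zero, h]
  have hdL : ι d ≠ 0 := by
    intro h
    apply hd
    apply i.injective
    rw [map_zero]
    exact h
  have hns : (W (ι d)).Nonsingular x y := (W_nonsingular (ι d) x y h2L hdL).2 hxy
  have hxc : ∀ c : F, x ≠ i c := by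
    intro c hc
    apply htr (X - C c) (X_sub_C_ne_zero c)
    rw [eval₂_sub, eval₂_X, eval₂_C, hc, sub_self]
  refine ⟨L, instL, alg, ι, x, y, hns, ?_, ?_⟩
  · intro p hp
    rw [hιr]
    exact htr p hp
  · intro Q Q' hQ
    -- the map on points
    have hB : ∃ B : (W d).Point →+ (W (ι d)).Point, (∀ P : (W d).Point, B P = 0 → P = 0) ∧
        (∀ (X1 Y1 : F) (h1 : (W d).Nonsingular X1 Y1), ∃ h1', B (.some X1 Y1 h1) =
          .some (i X1) (i Y1) h1') := by
      have hc : ι d = (1 : L) ^ 2 * i d := by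
        rw [one_pow, one_mul]
        rfl
      refine ⟨Tr (d := d) (d' := ι d) i 1 one_ne_zero hc, ?_, ?_⟩
      · intro P hP
        have hinj := Trf_injective (d := d) (d' := ι d) i 1 one_ne_zero hc
        apply hinj
        exact hP
      · intro X1 Y1 h1
        have e1 : (1 : L) ^ 2 * i X1 = i X1 := by ring
        have e2 : (1 : L) ^ 3 * i Y1 = i Y1 := by ring
        have h1' : (W (ι d)).Nonsingular (i X1) (i Y1) := by
          have := Trf_aux (d := d) (d' := ι d) i 1 one_ne_zero hc h1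
          rwa [e1, e2] at this
        refine ⟨h1', ?_⟩
        show Trf i 1 one_ne_zero hc (.some X1 Y1 h1) = _
        simp only [Trf]
        congr 1
    obtain ⟨B, hB0, hBs⟩ := hB
    have hQB : Q' = B Q := by
      rcases hQ with ⟨rfl, rfl⟩ | ⟨X1, Y1, h1, h1', rfl, rfl⟩
      · rw [map_zero]
      · obtain ⟨h1'', e⟩ := hBs X1 Y1 h1
        rw [e]
        rfl
    -- no point which comes from `F` has the coordinate `x`
    have hne : ∀ P : (W d).Point, (Point.some x y hns : Pt (ι d)) ≠ B P := by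
      intro P hP
      rcases P with _ | ⟨X1, Y1, h1⟩
      · have : B WeierstrassCurve.Affine.Point.zero = 0 := map_zero B
        rw [this] at hP
        exact absurd hP (by simp)
      · obtain ⟨h1', e⟩ := hBs X1 Y1 h1
        rw [e] at hP
        rw [Point.some.injEq] at hP
        exact hxc X1 hP.1
    obtain ⟨R, hR⟩ : ∃ R : Pt (ι d), R = (Point.some x y hns : Pt (ι d)) + Q' := ⟨_, rfl⟩
    have hRne : ∀ P : (W d).Point, R ≠ B P := by
      intro P hP
      apply hne (P - Q)
      rw [map_sub, ← hQB, ← hP, hR]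
      abel
    rcases R with _ | ⟨x', y', h'⟩
    · exact absurd (map_zero B).symm (hRne 0)
    · have hxy' : y' ^ 2 = x' ^ 3 - (i d) ^ 2 * x' := (W_nonsingular (ι d) x' y' h2L hdL).1 h'
      have htr' : ∀ p : F[X], p ≠ 0 → p.eval₂ i x' ≠ 0 := by
        intro p hp he
        obtain ⟨c, hc⟩ := eval₂_alg F L i x' p.natDegree p le_rfl hp he
        obtain ⟨b, hb⟩ := IsAlgClosed.exists_pow_nat_eq (c ^ 3 - d ^ 2 * c) (n := 2) (by norm_num)
        have h5 : y' ^ 2 = (i b) ^ 2 := by
          rw [hxy', hc, ← map_pow i b, hb, map_sub, map_mul, map_pow, map_pow]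
        rcases sq_eq_sq_iff_eq_or_eq_neg.1 h5 with h6 | h6
        · obtain ⟨h1', e⟩ := hBs c b ((W_nonsingular d c b h2 hd).2 hb)
          apply hRne _ (Eq.trans _ e.symm)
          congr 1
        · obtain ⟨h1', e⟩ := hBs c (-b) ((W_nonsingular d c (-b) h2 hd).2 (by rw [neg_sq, hb]))
          apply hRne _ (Eq.trans _ e.symm)
          congr 1
          rw [h6, map_neg]
      obtain ⟨s, hs1, hs2, hs3⟩ := hun x' y' hxy' htr'
      let σ : L →ₐ[GaussianInt] L :=
        { s with commutes' := fun r => hs1 (algebraMap GaussianInt F r) }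
      have hσ : ∀ a, σ a = s a := fun a => rfl
      have h'' : (W (ι d)).Nonsingular (σ x) (σ y) := by
        rw [hσ, hσ, hs2, hs3]
        exact h'
      refine ⟨σ, h'', ?_, ?_⟩
      · intro c
        rw [hσ, hι, hs1]
      · rw [← hR]
        congr 1
        · rw [hσ, hs2]
        · rw [hσ, hs3]

end Pool.Agent.WAP.H33
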