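import Pool.Agent.WAP.StmtsT

/-!
# Row DEN: admissible letters have dense domain
-/

namespace Pool.Agent.WAP.H33

open Classical

theorem map_ne_zero_of_loc {F : Type} [NormedField F] [Algebra GaussianInt F]
    {w : GaussianInt} (h : IsLoc F w) (a : GaussianInt) (ha : a ≠ 0) :
    algebraMap GaussianInt F a ≠ 0 := by
  have hf : FiniteMultiplicity w a :=
    FiniteMultiplicity.of_not_isUnit h.prime.not_isUnit ha
  obtain ⟨c, hc, hd⟩ := hf.exists_eq_pow_mul_and_not_dvd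
  intro h0
  rw [hc, map_mul, map_pow] at h0
  rcases mul_eq_zero.1 h0 with h1 | h1
  · have h2 : algebraMap GaussianInt F w = 0 := eq_zero_of_pow_eq_zero h1
    have h3 := h.uni
    rw [h2, norm_zero] at h3
    exact lt_irrefl _ h3
  · apply hd
    apply (h.lt_one c).1
    rw [h1, norm_zero]
    exact one_pos

theorem two_ne_zero_lc {F : Type} [NormedField F] [Algebra GaussianInt F]
    (h : IsLC F) : (2 : F) ≠ 0 := by
  rcases h with ⟨w, hw⟩ | ⟨s, hs⟩
  · have h1 := map_ne_zero_of_loc hw 2 (by decide)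
    rwa [map_ofNat] at h1
  · intro h2
    have h3 : s 2 = s 0 := by rw [h2]
    rw [map_ofNat, map_zero] at h3
    exact two_ne_zero h3

theorem den (dna : DnaStmt) (dns : DnsStmt) (dnj : DnjStmt) : DenStmt := by
  intro F _ _ hF l hl V hVo hV
  have h2 := two_ne_zero_lc hF
  obtain ⟨z, hz, hzU⟩ := hV
  cases l with
  | act a b c e => exact dna F hF a b c e hl V hVo ⟨z, hz, hzU⟩
  | sw => exact ⟨z, hz, dns F h2 _ (Or.inl rfl) z hzU⟩
  | t0 => exact ⟨z, hz, dns F h2 _ (Or.inr (Or.inl rfl)) z hzU⟩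
  | tp => exact ⟨z, hz, dns F h2 _ (Or.inr (Or.inr (Or.inl rfl))) z hzU⟩
  | tm => exact ⟨z, hz, dns F h2 _ (Or.inr (Or.inr (Or.inr rfl))) z hzU⟩
  | io => exact dnj F hF _ (Or.inl rfl) V hVo ⟨z, hz, hzU⟩
  | jj => exact dnj F hF _ (Or.inr rfl) V hVo ⟨z, hz, hzU⟩

end Pool.Agent.WAP.H33
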